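import Pool.Agent.Q73.AD.StmZ

/-!
# The upper bound of Yau for the nodal length on closed surfaces: statements of the packages

`ℂ` is the plane; `dx`, `dy`, `lap` are the partial derivatives and the Laplacian
(`Pool.Agent.Q73.NL`). `P u τ = u² + |∇u|² + τ`, `vv u τ = (log P) / 2`.
-/

set_option autoImplicit false
open MeasureTheory Filter Topology Complex Metric
open scoped ContDiff ENNReal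

namespace Pool.Agent.D0H81.YN

open Pool.Agent.Q73.NL (dx dy lap)
open Pool.Agent.Q73.AD (sn gr gd ct Loc Atl Eig)

noncomputable section

universe u v

/-- `|∇f|` -/
def gn (f : ℂ → ℝ) (z : ℂ) : ℝ := Real.sqrt (dx f z ^ 2 + dy f z ^ 2)

/-- `u² + |∇u|² + τ` -/
def P (u : ℂ → ℝ) (τ : ℝ) (z : ℂ) : ℝ := u z ^ 2 + dx u z ^ 2 + dy u z ^ 2 + τ

/-- half of the logarithm of `P` -/
def vv (u : ℂ → ℝ) (τ : ℝ) (z : ℂ) : ℝ := Real.log (P u τ z) / 2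

/-- smooth solution of `Δu + q u = 0` in the closed disc of radius 16 -/
structure SolB (q u : ℂ → ℝ) : Prop where
  sm : ∀ z ∈ closedBall (0 : ℂ) 16, ContDiffAt ℝ ∞ u z
  qs : ∀ z ∈ closedBall (0 : ℂ) 16, ContDiffAt ℝ 1 q z
  q0 : ∀ z ∈ closedBall (0 : ℂ) 16, 0 ≤ q z
  q1 : ∀ z ∈ closedBall (0 : ℂ) 16, q z ≤ 1
  dq : ∀ z ∈ closedBall (0 : ℂ) 16, ‖fderiv ℝ q z‖ ≤ 1
  eq : ∀ z ∈ closedBall (0 : ℂ) 16, lap u z + q z * u z = 0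

/-- DI: `log (u² + |∇u|² + τ)` is almost subharmonic -/
def S_DI : Prop := ∃ C : ℝ, 1 ≤ C ∧ ∀ (q u : ℂ → ℝ) (τ : ℝ), 0 < τ → SolB q u →
  ∀ z ∈ ball (0 : ℂ) 16, ContDiffAt ℝ ∞ (vv u τ) z ∧ -C ≤ lap (vv u τ) z

/-- UB: upper bound of the gradient (from DI) -/
def S_UB : Prop := ∃ C : ℝ, 1 ≤ C ∧ ∀ (q u : ℂ → ℝ) (τ S : ℝ), 0 < τ → SolB q u →
  (∀ z ∈ ball (0 : ℂ) 16, |u z| ≤ S) → ∀ z ∈ ball (0 : ℂ) 10, P u τ z ≤ C * (S ^ 2 + τ)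

/-- MV: mean value inequality -/
def S_MV : Prop := ∃ C : ℝ, 1 ≤ C ∧ ∀ (v : ℂ → ℝ) (K C₁ : ℝ) (z₀ : ℂ), ‖z₀‖ ≤ 1 → 0 ≤ C₁ →
  (∀ z ∈ ball (0 : ℂ) 10, ContDiffAt ℝ ∞ v z ∧ v z ≤ K ∧ -C₁ ≤ lap v z) →
  ∫ z in ball (0 : ℂ) 3, (K - v z) ≤ C * (K - v z₀ + C₁)

/-- EN: the gradient of an almost superharmonic function `m ≥ 1` -/
def S_EN : Prop := ∀ C₁ : ℝ, 1 ≤ C₁ → ∃ C : ℝ, 1 ≤ C ∧ ∀ m : ℂ → ℝ,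
  (∀ z ∈ closedBall (0 : ℂ) 3, ContDiffAt ℝ ∞ m z ∧ 1 ≤ m z ∧ lap m z ≤ C₁) →
  ∫ z in ball (0 : ℂ) 2, gn m z ≤ C * ∫ z in ball (0 : ℂ) 3, m z

/-- DV: the divergence theorem for `arctan (u / ε) ∇u / √P` -/
def S_DV : Prop := ∃ C : ℝ, 1 ≤ C ∧ ∀ (q u : ℂ → ℝ) (ε τ : ℝ), 0 < ε → 0 < τ → SolB q u →
  ∫ z in ball (0 : ℂ) (3 / 2), ε / (ε ^ 2 + u z ^ 2) * (gn u z ^ 2 / Real.sqrt (P u τ z)) ≤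
    C * (1 + ∫ z in ball (0 : ℂ) 2, gn (vv u τ) z)

/-- CI: circles around a zero; `δ ≤ 1/18` -/
def S_CI : Prop := ∀ (u : ℂ → ℝ) (y : ℂ) (δ ε : ℝ), 0 < δ → δ ≤ 1 / 18 → 0 < ε →
  (∀ z ∈ closedBall y (2 * δ), ContDiffAt ℝ ∞ u z) →
  (∀ r ∈ Set.Icc δ (2 * δ), (∃ z ∈ sphere y r, ε ≤ u z) ∧ ∃ z ∈ sphere y r, u z ≤ -ε) →
  δ / 2 ≤ ∫ z in ball y (2 * δ), ε / (ε ^ 2 + u z ^ 2) * (gn u z ^ 2 / Real.sqrt (P u (ε ^ 2) z))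

/-- SG: signs on small circles around zeros, with a uniform bound -/
def S_SG : Prop := ∀ (q u : ℂ → ℝ) (δ : ℝ), SolB q u → 0 < δ → δ ≤ 1 / 2 →
  (∀ (z : ℂ) (r : ℝ), 0 < r → closedBall z r ⊆ closedBall 0 16 → 0 < sn u (closedBall z r)) →
  ∃ ε : ℝ, 0 < ε ∧ ∀ y ∈ closedBall (0 : ℂ) 1, u y = 0 → ∀ r ∈ Set.Icc δ (2 * δ),
    (∃ z ∈ sphere y r, ε ≤ u z) ∧ ∃ z ∈ sphere y r, u z ≤ -ε

/-- HM: length from the number of separated points -/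
def S_HM : Prop := ∀ (Z : Set ℂ) (B δ₀ : ℝ), Z ⊆ closedBall 0 1 → 0 ≤ B → 0 < δ₀ →
  (∀ (δ : ℝ) (F : Finset ℂ), 0 < δ → δ ≤ δ₀ → (F : Set ℂ) ⊆ Z →
    (∀ x ∈ F, ∀ y ∈ F, x ≠ y → 4 * δ < dist x y) → F.card * δ ≤ B) →
  (μH[1] : Measure ℂ) Z ≤ ENNReal.ofReal (8 * B)

/-- LT: the local theorem -/
def S_LT : Prop := ∃ C : ℝ, 1 ≤ C ∧ ∀ q u : ℂ → ℝ, SolB q u →
  (∀ (z : ℂ) (r : ℝ), 0 < r → closedBall z r ⊆ closedBall 0 16 → 0 < sn u (closedBall z r)) →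
  (μH[1] : Measure ℂ) {z | z ∈ closedBall (0 : ℂ) 1 ∧ u z = 0} ≤
    ENNReal.ofReal (C * (1 + Real.log (sn u (closedBall 0 16) / sn u (closedBall 0 1))))

/-- SC: the local theorem, scaled -/
def S_SC : Prop := ∃ C : ℝ, 1 ≤ C ∧ ∀ (lam L σ : ℝ) (p : ℂ) (ρ φ : ℂ → ℝ), 0 < lam → 1 ≤ L →
  0 < σ → σ ≤ 1 → lam * L * σ ^ 2 ≤ 1 →
  (∀ z ∈ closedBall p (16 * σ), ContDiffAt ℝ ∞ φ z ∧ ContDiffAt ℝ 1 ρ z ∧ 0 ≤ ρ z ∧ ρ z ≤ L ∧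
    ‖fderiv ℝ ρ z‖ ≤ L ∧ lap φ z + lam * ρ z * φ z = 0) →
  (∀ (z : ℂ) (r : ℝ), 0 < r → closedBall z r ⊆ closedBall p (16 * σ) →
    0 < sn φ (closedBall z r)) →
  (μH[1] : Measure ℂ) {z | z ∈ closedBall p σ ∧ φ z = 0} ≤
    ENNReal.ofReal (C * σ * (1 + Real.log (sn φ (closedBall p (16 * σ)) / sn φ (closedBall p σ))))

/-- SQ: the nodal length in a square -/
def S_SQ : Prop := ∃ s₁ : ℝ, 0 < s₁ ∧ ∀ s L G₀ : ℝ, 0 < s → s ≤ s₁ → s ≤ 1 / 32 → 1 ≤ L → 0 ≤ G₀ →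
  ∃ A lam₀ : ℝ, 0 < A ∧ 0 < lam₀ ∧ ∀ (lam : ℝ) (p : ℂ) (ρ φ : ℂ → ℝ), lam₀ ≤ lam →
    Loc lam L s p ρ φ → gr φ p s ≤ G₀ * (Real.sqrt lam * s) →
    (μH[1] : Measure ℂ) {z | |(z - p).re| ≤ s ∧ |(z - p).im| ≤ s ∧ φ z = 0} ≤
      ENNReal.ofReal (A * Real.sqrt lam)

/-- GS: the nodal length on a closed surface with conformal charts -/
def S_GS : Prop := ∀ (M : Type u) (ι : Type v) [MetricSpace M] [CompactSpace M] [ConnectedSpace M]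
  [MeasurableSpace M] [BorelSpace M]
  (U : ι → Set ℂ) (φ : ι → ℂ → M) (ρ : ι → ℂ → ℝ), Atl U φ ρ → (∀ i, ∀ z ∈ U i, 0 ≤ ρ i z) →
  ∃ A : ℝ, 0 < A ∧ ∀ (lam : ℝ) (f : M → ℝ), 0 ≤ lam → Eig U φ ρ lam f → (∃ x, f x ≠ 0) →
    (μH[1] : Measure M) {x | f x = 0} ≤ ENNReal.ofReal (A * Real.sqrt (1 + lam))

/-- SM: no zeros for small eigenvalues -/
def S_SM : Prop := ∀ (M : Type u) (ι : Type v) [MetricSpace M] [CompactSpace M] [ConnectedSpace M]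
  (U : ι → Set ℂ) (φ : ι → ℂ → M) (ρ : ι → ℂ → ℝ), Atl U φ ρ → (∀ i, ∀ z ∈ U i, 0 ≤ ρ i z) →
  ∃ lam₁ : ℝ, 0 < lam₁ ∧ ∀ (lam : ℝ) (f : M → ℝ), 0 ≤ lam → lam < lam₁ → Eig U φ ρ lam f →
    (∃ x, f x ≠ 0) → ∀ x, f x ≠ 0

end

end Pool.Agent.D0H81.YN
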