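import Pool.Agent.D0H81.YN.Stm
import Pool.Agent.Q73.AD.TA4

/-! # DI: `log (u² + |∇u|² + τ)` is almost subharmonic -/

set_option autoImplicit false
open MeasureTheory Filter Topology Complex Metric
open scoped ContDiff

namespace Pool.Agent.D0H81.YN

open Pool.Agent.Q73.NL (dx dy lap)
open Pool.Agent.Q73.AD (cda_ev cda_d fd_mul fd_fd_mul lap_mul)

theorem di_alg (u a b α β q qx qy τ : ℝ) (hτ : 0 ≤ τ) (hq0 : 0 ≤ q) (hq1 : q ≤ 1)
    (hx : |qx| ≤ 1) (hy : |qy| ≤ 1) :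
    -14 * (u ^ 2 + a ^ 2 + b ^ 2 + τ) ^ 2 ≤
      (2 * (a ^ 2 + b ^ 2) + 2 * u * (-(q * u)) + (2 * (α ^ 2 + β ^ 2) + 2 * a * (-(qx * u + q * a))) +
        (2 * (β ^ 2 + (-(q * u) - α) ^ 2) + 2 * b * (-(qy * u + q * b)))) *
          (u ^ 2 + a ^ 2 + b ^ 2 + τ) -
      ((2 * u * a + 2 * a * α + 2 * b * β) ^ 2 +
        (2 * u * b + 2 * a * β + 2 * b * (-(q * u) - α)) ^ 2) := by
  obtain ⟨P, hP⟩ : ∃ P, P = u ^ 2 + a ^ 2 + b ^ 2 + τ := ⟨_, rfl⟩
  have hP0 : 0 ≤ P := by rw [hP]; positivity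
  have hPu : u ^ 2 + a ^ 2 + b ^ 2 ≤ P := by rw [hP]; linarith
  have hx' := abs_le.1 hx
  have hy' := abs_le.1 hy
  have t1 : 0 ≤ 4 * (α ^ 2 + β ^ 2) * τ := by positivity
  have t2 : 0 ≤ 2 * (u * α) ^ 2 + 2 * P ^ 2 + 4 * q * (u * α) * P := by
    have e : 2 * (u * α) ^ 2 + 2 * P ^ 2 + 4 * q * (u * α) * P =
        (1 + q) * (u * α + P) ^ 2 + (1 - q) * (u * α - P) ^ 2 := by ring
    rw [e]
    have : 0 ≤ 1 - q := by linarith
    positivity
  have t3 : 8 * u * ((a ^ 2 - (1 - q) * b ^ 2) * α + (1 + (1 - q)) * (a * b) * β) ≤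
      2 * u ^ 2 * α ^ 2 + 2 * u ^ 2 * β ^ 2 + 8 * P ^ 2 := by
    have e1 : (a ^ 2 - (1 - q) * b ^ 2) ^ 2 + ((1 + (1 - q)) * (a * b)) ^ 2 ≤ P ^ 2 := by
      have e2 : (a ^ 2 - (1 - q) * b ^ 2) ^ 2 + ((1 + (1 - q)) * (a * b)) ^ 2 =
          (a ^ 2 + b ^ 2) * (a ^ 2 + (1 - q) ^ 2 * b ^ 2) := by ring
      have e3 : (1 - q) ^ 2 * b ^ 2 ≤ 1 * b ^ 2 := by
        apply mul_le_mul_of_nonneg_right _ (sq_nonneg b)
        nlinarith
      have e4 : a ^ 2 + b ^ 2 ≤ P := by nlinarith [sq_nonneg u]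
      rw [e2, sq P]
      apply mul_le_mul e4 (by nlinarith [sq_nonneg u]) (by positivity) hP0
    nlinarith [sq_nonneg (u * α - 2 * (a ^ 2 - (1 - q) * b ^ 2)),
      sq_nonneg (u * β - 2 * ((1 + (1 - q)) * (a * b)))]
  have t5 : 0 ≤ P * (2 * (a ^ 2 + b ^ 2) * (1 - q)) := by
    have : 0 ≤ 1 - q := by linarith
    positivity
  have t6 : -(P ^ 2) ≤ P * ((2 * q ^ 2 - 2 * q) * u ^ 2) := by
    have e1 : -1 ≤ 2 * q ^ 2 - 2 * q := by nlinarith [sq_nonneg (2 * q - 1)]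
    have e2 : -P ≤ (2 * q ^ 2 - 2 * q) * u ^ 2 := by nlinarith [sq_nonneg u, sq_nonneg a, sq_nonneg b]
    nlinarith
  have t7 : P * (2 * u * (a * qx + b * qy)) ≤ 2 * P ^ 2 := by
    have e1 : 2 * u * (a * qx + b * qy) ≤ 2 * P := by
      have h1 : 2 * (u * qx) * a ≤ (u * qx) ^ 2 + a ^ 2 := by nlinarith [sq_nonneg (u * qx - a)]
      have h2 : 2 * (u * qy) * b ≤ (u * qy) ^ 2 + b ^ 2 := by nlinarith [sq_nonneg (u * qy - b)]
      have h3 : (u * qx) ^ 2 ≤ u ^ 2 := by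
        rw [mul_pow]
        have : qx ^ 2 ≤ 1 := by nlinarith
        nlinarith [sq_nonneg u]
      have h4 : (u * qy) ^ 2 ≤ u ^ 2 := by
        rw [mul_pow]
        have : qy ^ 2 ≤ 1 := by nlinarith
        nlinarith [sq_nonneg u]
      nlinarith [sq_nonneg a, sq_nonneg b]
    nlinarith
  have t8 : 4 * u ^ 2 * a ^ 2 + 4 * (1 - q) ^ 2 * u ^ 2 * b ^ 2 ≤ P ^ 2 := by
    have e1 : (1 - q) ^ 2 ≤ 1 := by nlinarith
    have e2 : (1 - q) ^ 2 * (u ^ 2 * b ^ 2) ≤ 1 * (u ^ 2 * b ^ 2) :=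
      mul_le_mul_of_nonneg_right e1 (by positivity)
    have e3 : (u ^ 2 + a ^ 2 + b ^ 2) ^ 2 ≤ P ^ 2 := by
      apply pow_le_pow_left₀ (by positivity) hPu
    nlinarith [sq_nonneg (u ^ 2 - (a ^ 2 + b ^ 2))]
  rw [← hP]
  have key : (2 * (a ^ 2 + b ^ 2) + 2 * u * (-(q * u)) + (2 * (α ^ 2 + β ^ 2) + 2 * a * (-(qx * u + q * a))) +
        (2 * (β ^ 2 + (-(q * u) - α) ^ 2) + 2 * b * (-(qy * u + q * b)))) * P -
      ((2 * u * a + 2 * a * α + 2 * b * β) ^ 2 +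
        (2 * u * b + 2 * a * β + 2 * b * (-(q * u) - α)) ^ 2) =
      4 * (α ^ 2 + β ^ 2) * (P - (a ^ 2 + b ^ 2)) + P * (2 * (a ^ 2 + b ^ 2) * (1 - q)) +
        P * ((2 * q ^ 2 - 2 * q) * u ^ 2) + 4 * q * (u * α) * P - P * (2 * u * (a * qx + b * qy)) -
        8 * u * ((a ^ 2 - (1 - q) * b ^ 2) * α + (1 + (1 - q)) * (a * b) * β) -
        (4 * u ^ 2 * a ^ 2 + 4 * (1 - q) ^ 2 * u ^ 2 * b ^ 2) := by ring
  rw [key]
  have e9 : P - (a ^ 2 + b ^ 2) = u ^ 2 + τ := by rw [hP]; ring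
  rw [e9]
  nlinarith

/-! ### calculus -/

theorem symm_xy {f : ℂ → ℝ} {z : ℂ} (hf : ContDiffAt ℝ ∞ f z) (v w : ℂ) :
    fderiv ℝ (fun y => fderiv ℝ f y v) z w = fderiv ℝ (fun y => fderiv ℝ f y w) z v := by
  have h2 : ContDiffAt ℝ 2 f z := hf.of_le (by
    have : ((2 : ℕ∞) : WithTop ℕ∞) ≤ (∞ : WithTop ℕ∞) := by exact_mod_cast le_top
    exact this)
  have hs : IsSymmSndFDerivAt ℝ f z := h2.isSymmSndFDerivAt (by simp)
  have hd : DifferentiableAt ℝ (fderiv ℝ f) z :=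
    (h2.fderiv_right (m := 1) (by norm_num)).differentiableAt (by norm_num)
  have e : ∀ v w : ℂ, fderiv ℝ (fun y => fderiv ℝ f y v) z w = fderiv ℝ (fderiv ℝ f) z w v := by
    intro v w
    rw [fderiv_clm_apply hd (differentiableAt_const v)]
    simp
  rw [e, e, hs.eq]

theorem cda_dx {f : ℂ → ℝ} {z : ℂ} (hf : ContDiffAt ℝ ∞ f z) : ContDiffAt ℝ ∞ (dx f) z := cda_d 1 hf

theorem cda_dy {f : ℂ → ℝ} {z : ℂ} (hf : ContDiffAt ℝ ∞ f z) : ContDiffAt ℝ ∞ (dy f) z := cda_d I hf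

theorem cda_lap {f : ℂ → ℝ} {z : ℂ} (hf : ContDiffAt ℝ ∞ f z) : ContDiffAt ℝ ∞ (lap f) z :=
  (cda_dx (cda_dx hf)).add (cda_dy (cda_dy hf))

theorem cda_nhds {f : ℂ → ℝ} {z : ℂ} (hf : ContDiffAt ℝ ∞ f z) (n : ℕ) :
    ∀ᶠ y in 𝓝 z, ContDiffAt ℝ n f y :=
  (hf.of_le (by exact_mod_cast le_top : ((n : ℕ∞) : WithTop ℕ∞) ≤ (∞ : WithTop ℕ∞))).eventually
    (by simp)

theorem fd_add {f g : ℂ → ℝ} {z : ℂ} (e : ℂ) (hf : DifferentiableAt ℝ f z)
    (hg : DifferentiableAt ℝ g z) :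
    fderiv ℝ (fun y => f y + g y) z e = fderiv ℝ f z e + fderiv ℝ g z e := by
  rw [fderiv_fun_add hf hg]; rfl

theorem lap_add {f g : ℂ → ℝ} {z : ℂ} (hf : ContDiffAt ℝ ∞ f z) (hg : ContDiffAt ℝ ∞ g z) :
    lap (fun y => f y + g y) z = lap f z + lap g z := by
  have h : ∀ e : ℂ, fderiv ℝ (fun u => fderiv ℝ (fun y => f y + g y) u e) z e =
      fderiv ℝ (fun u => fderiv ℝ f u e) z e + fderiv ℝ (fun u => fderiv ℝ g u e) z e := by
    intro e
    have h1 : (fun u => fderiv ℝ (fun y => f y + g y) u e) =ᶠ[𝓝 z]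
        fun u => fderiv ℝ f u e + fderiv ℝ g u e := by
      filter_upwards [cda_ev hf, cda_ev hg] with u h1 h2
      exact fd_add e h1 h2
    rw [h1.fderiv_eq, fd_add e ((cda_d e hf).differentiableAt (by simp))
      ((cda_d e hg).differentiableAt (by simp))]
  have e1 := h 1
  have e2 := h I
  change fderiv ℝ (fun u => fderiv ℝ (fun y => f y + g y) u 1) z 1 +
    fderiv ℝ (fun u => fderiv ℝ (fun y => f y + g y) u I) z I = _
  rw [e1, e2]
  change _ = (fderiv ℝ (fun u => fderiv ℝ f u 1) z 1 + fderiv ℝ (fun u => fderiv ℝ f u I) z I) +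
    (fderiv ℝ (fun u => fderiv ℝ g u 1) z 1 + fderiv ℝ (fun u => fderiv ℝ g u I) z I)
  ring

theorem lap_sq {f : ℂ → ℝ} {z : ℂ} (hf : ContDiffAt ℝ ∞ f z) :
    lap (fun y => f y ^ 2) z = 2 * (dx f z ^ 2 + dy f z ^ 2) + 2 * f z * lap f z := by
  have h : (fun y => f y ^ 2) = fun y => f y * f y := by funext y; ring
  rw [h, lap_mul hf hf]
  ring

theorem fd_sq {f : ℂ → ℝ} {z : ℂ} (e : ℂ) (hf : DifferentiableAt ℝ f z) :
    fderiv ℝ (fun y => f y ^ 2) z e = 2 * f z * fderiv ℝ f z e := by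
  have h : (fun y => f y ^ 2) = fun y => f y * f y := by funext y; ring
  rw [h, fd_mul e hf hf]
  ring

theorem lap_const (c : ℝ) (z : ℂ) : lap (fun _ => c) z = 0 :=
  (Pool.Agent.Q73.AD.ev_const (f := fun _ => c) (c := c) (Filter.EventuallyEq.refl _ _)).2.2

/-- Laplacian of `log f / 2` -/
theorem lap_log {f : ℂ → ℝ} {z : ℂ} (hf : ContDiffAt ℝ ∞ f z) (h0 : 0 < f z) :
    lap (fun y => Real.log (f y) / 2) z =
      (lap f z * f z - (dx f z ^ 2 + dy f z ^ 2)) / (2 * f z ^ 2) := by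
  have hpos : ∀ᶠ y in 𝓝 z, 0 < f y := hf.continuousAt.eventually_const_lt h0
  have h : ∀ e : ℂ, fderiv ℝ (fun u => fderiv ℝ (fun y => Real.log (f y) / 2) u e) z e =
      (fderiv ℝ (fun u => fderiv ℝ f u e) z e * f z - fderiv ℝ f z e ^ 2) / (2 * f z ^ 2) := by
    intro e
    have h1 : (fun u => fderiv ℝ (fun y => Real.log (f y) / 2) u e) =ᶠ[𝓝 z]
        fun u => fderiv ℝ f u e / (2 * f u) := by
      filter_upwards [cda_ev hf, hpos] with u hu hu0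
      have h3 : (fun y => Real.log (f y) / 2) = fun y => (1 / 2) * Real.log (f y) := by
        funext y; ring
      have := (hu.hasFDerivAt.log hu0.ne').const_mul (1 / 2)
      rw [h3, this.fderiv]
      simp
      field_simp
    rw [h1.fderiv_eq]
    have hd1 : HasFDerivAt (fun u => fderiv ℝ f u e) (fderiv ℝ (fun u => fderiv ℝ f u e) z) z :=
      ((cda_d e hf).differentiableAt (by simp)).hasFDerivAt
    have hd2 : HasFDerivAt f (fderiv ℝ f z) z := (hf.differentiableAt (by simp)).hasFDerivAt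
    have hne : (2 * f z) ≠ 0 := by positivity
    have hinv := (hasDerivAt_inv hne).comp_hasFDerivAt z (hd2.const_mul 2)
    have hd3 := hd1.mul hinv
    have h4 : (fun u => fderiv ℝ f u e / (2 * f u)) =
        ((fun u => fderiv ℝ f u e) * ((fun y => y⁻¹) ∘ fun u => 2 * f u)) := by
      funext u
      simp [div_eq_mul_inv]
    rw [h4, hd3.fderiv]
    simp
    field_simp
    ring
  have e1 := h 1
  have e2 := h I
  change fderiv ℝ (fun u => fderiv ℝ (fun y => Real.log (f y) / 2) u 1) z 1 +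
    fderiv ℝ (fun u => fderiv ℝ (fun y => Real.log (f y) / 2) u I) z I = _
  rw [e1, e2]
  change _ = ((fderiv ℝ (fun u => fderiv ℝ f u 1) z 1 + fderiv ℝ (fun u => fderiv ℝ f u I) z I) * f z -
    (fderiv ℝ f z 1 ^ 2 + fderiv ℝ f z I ^ 2)) / (2 * f z ^ 2)
  rw [← add_div]
  ring

theorem cda_P {u : ℂ → ℝ} {z : ℂ} (hu : ContDiffAt ℝ ∞ u z) (τ : ℝ) : ContDiffAt ℝ ∞ (P u τ) z :=
  (((hu.pow 2).add ((cda_dx hu).pow 2)).add ((cda_dy hu).pow 2)).add contDiffAt_const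

theorem P_pos (u : ℂ → ℝ) {τ : ℝ} (hτ : 0 < τ) (z : ℂ) : 0 < P u τ z := by
  unfold P; positivity

theorem cda_vv {u : ℂ → ℝ} {z : ℂ} (hu : ContDiffAt ℝ ∞ u z) {τ : ℝ} (hτ : 0 < τ) :
    ContDiffAt ℝ ∞ (vv u τ) z := ((cda_P hu τ).log (P_pos u hτ z).ne').div_const 2

theorem lap_P {u : ℂ → ℝ} {z : ℂ} (hu : ContDiffAt ℝ ∞ u z) (τ : ℝ) :
    lap (P u τ) z = (2 * (dx u z ^ 2 + dy u z ^ 2) + 2 * u z * lap u z) +
      (2 * (dx (dx u) z ^ 2 + dy (dx u) z ^ 2) + 2 * dx u z * lap (dx u) z) +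
      (2 * (dx (dy u) z ^ 2 + dy (dy u) z ^ 2) + 2 * dy u z * lap (dy u) z) := by
  have ha := cda_dx hu
  have hb := cda_dy hu
  have e1 : lap (P u τ) z = lap (fun y => u y ^ 2 + dx u y ^ 2 + dy u y ^ 2) z + lap (fun _ => τ) z :=
    lap_add (f := fun y => u y ^ 2 + dx u y ^ 2 + dy u y ^ 2)
      (((hu.pow 2).add (ha.pow 2)).add (hb.pow 2)) contDiffAt_const
  have e2 := lap_add (f := fun y => u y ^ 2 + dx u y ^ 2) (g := fun y => dy u y ^ 2)
    ((hu.pow 2).add (ha.pow 2)) (hb.pow 2)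
  have e3 := lap_add (f := fun y => u y ^ 2) (g := fun y => dx u y ^ 2) (hu.pow 2) (ha.pow 2)
  rw [e1, e2, e3, lap_const, lap_sq hu, lap_sq ha, lap_sq hb]
  ring

theorem fd_P {u : ℂ → ℝ} {z : ℂ} (hu : ContDiffAt ℝ ∞ u z) (τ : ℝ) (e : ℂ) :
    fderiv ℝ (P u τ) z e = 2 * u z * fderiv ℝ u z e + 2 * dx u z * fderiv ℝ (dx u) z e +
      2 * dy u z * fderiv ℝ (dy u) z e := by
  have hu' := hu.differentiableAt (by simp)
  have ha := (cda_dx hu).differentiableAt (by simp)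
  have hb := (cda_dy hu).differentiableAt (by simp)
  have e1 : fderiv ℝ (P u τ) z e = fderiv ℝ (fun y => u y ^ 2 + dx u y ^ 2 + dy u y ^ 2) z e +
      fderiv ℝ (fun _ => τ) z e :=
    fd_add e (f := fun y => u y ^ 2 + dx u y ^ 2 + dy u y ^ 2)
      (((hu'.pow 2).add (ha.pow 2)).add (hb.pow 2)) (differentiableAt_const _)
  have e2 := fd_add e (f := fun y => u y ^ 2 + dx u y ^ 2) (g := fun y => dy u y ^ 2)
    ((hu'.pow 2).add (ha.pow 2)) (hb.pow 2)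
  have e3 := fd_add e (f := fun y => u y ^ 2) (g := fun y => dx u y ^ 2) (hu'.pow 2) (ha.pow 2)
  rw [e1, e2, e3, fd_sq e hu', fd_sq e ha, fd_sq e hb]
  simp

/-- third derivatives from the equation -/
theorem lap_d {q u : ℂ → ℝ} (h : SolB q u) {z : ℂ} (hz : z ∈ ball (0 : ℂ) 16) :
    lap (dx u) z = -(dx q z * u z + q z * dx u z) ∧ lap (dy u) z = -(dy q z * u z + q z * dy u z) := by
  have hzc := ball_subset_closedBall hz
  have hu := h.sm z hzc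
  have hq : DifferentiableAt ℝ q z := (h.qs z hzc).differentiableAt (by norm_num)
  have hu' := hu.differentiableAt (by simp)
  have hnb : ∀ᶠ y in 𝓝 z, y ∈ closedBall (0 : ℂ) 16 := by
    filter_upwards [isOpen_ball.mem_nhds hz] with y hy using ball_subset_closedBall hy
  have hlap : lap u =ᶠ[𝓝 z] fun y => (-1) * (q y * u y) := by
    filter_upwards [hnb] with y hy
    have := h.eq y hy
    linarith
  have hfd : ∀ e : ℂ, fderiv ℝ (lap u) z e = -(fderiv ℝ q z e * u z + q z * fderiv ℝ u z e) := by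
    intro e
    rw [hlap.fderiv_eq, fd_mul e (f := fun _ => (-1 : ℝ)) (h := fun y => q y * u y)
      (differentiableAt_const _) (hq.mul hu'), fd_mul e hq hu']
    simp
  have hsplit : ∀ e : ℂ, fderiv ℝ (lap u) z e =
      fderiv ℝ (dx (dx u)) z e + fderiv ℝ (dy (dy u)) z e := by
    intro e
    exact fd_add e ((cda_dx (cda_dx hu)).differentiableAt (by simp))
      ((cda_dy (cda_dy hu)).differentiableAt (by simp))
  have hsm : ∀ᶠ y in 𝓝 z, ContDiffAt ℝ ∞ u y := by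
    filter_upwards [hnb] with y hy using h.sm y hy
  constructor
  · have e1 : lap (dx u) z = fderiv ℝ (dx (dx u)) z 1 + fderiv ℝ (dy (dx u)) z I := rfl
    have e2 : dy (dx u) =ᶠ[𝓝 z] dx (dy u) := by
      filter_upwards [hsm] with y hy
      exact symm_xy hy 1 I
    have e3 : fderiv ℝ (dx (dy u)) z I = fderiv ℝ (dy (dy u)) z 1 := symm_xy (cda_dy hu) 1 I
    rw [e1, e2.fderiv_eq, e3, ← hsplit, hfd]
    rfl
  · have e1 : lap (dy u) z = fderiv ℝ (dx (dy u)) z 1 + fderiv ℝ (dy (dy u)) z I := rfl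
    have e2 : dx (dy u) =ᶠ[𝓝 z] dy (dx u) := by
      filter_upwards [hsm] with y hy
      exact symm_xy hy I 1
    have e3 : fderiv ℝ (dy (dx u)) z 1 = fderiv ℝ (dx (dx u)) z I := symm_xy (cda_dx hu) I 1
    rw [e1, e2.fderiv_eq, e3, ← hsplit, hfd]
    rfl

/-- DI -/
theorem t_DI : S_DI := by
  refine ⟨7, by norm_num, fun q u τ hτ h z hz => ⟨cda_vv (h.sm z (ball_subset_closedBall hz)) hτ, ?_⟩⟩
  have hzc := ball_subset_closedBall hz
  have hu := h.sm z hzc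
  have hP := P_pos u hτ z
  have e1 : lap (vv u τ) z = _ := lap_log (cda_P hu τ) hP
  rw [e1, lap_P hu]
  obtain ⟨l1, l2⟩ := lap_d h hz
  have e2 : dx (P u τ) z = _ := fd_P hu τ 1
  have e3 : dy (P u τ) z = _ := fd_P hu τ I
  have e4 : dx (dy u) z = dy (dx u) z := symm_xy hu I 1
  have e5 : lap u z = dx (dx u) z + dy (dy u) z := rfl
  have e6 := h.eq z hzc
  have e7 : dy (dy u) z = -(q z * u z) - dx (dx u) z := by linarith
  have e8 : lap u z = -(q z * u z) := by linarith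
  have hqx : |dx q z| ≤ 1 := by
    refine ((fderiv ℝ q z).le_opNorm 1).trans ?_
    simpa using h.dq z hzc
  have hqy : |dy q z| ≤ 1 := by
    refine ((fderiv ℝ q z).le_opNorm I).trans ?_
    simpa using h.dq z hzc
  have key := di_alg (u z) (dx u z) (dy u z) (dx (dx u) z) (dy (dx u) z) (q z) (dx q z) (dy q z) τ hτ.le
    (h.q0 z hzc) (h.q1 z hzc) hqx hqy
  have e2' : dx (P u τ) z = 2 * u z * dx u z + 2 * dx u z * dx (dx u) z +
      2 * dy u z * dy (dx u) z := by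
    rw [e2]
    change _ + _ + 2 * dy u z * dx (dy u) z = _
    rw [e4]
    rfl
  have e3' : dy (P u τ) z = 2 * u z * dy u z + 2 * dx u z * dy (dx u) z +
      2 * dy u z * (-(q z * u z) - dx (dx u) z) := by
    rw [e3, ← e7]
    rfl
  rw [e2', e3', l1, l2, e4, e7, e8, le_div_iff₀ (by positivity)]
  have e9 : P u τ z = u z ^ 2 + dx u z ^ 2 + dy u z ^ 2 + τ := rfl
  rw [e9]
  nlinarith [key]

end Pool.Agent.D0H81.YN
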