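import Pool.Agent.D0H81.YN.Fin0
import Pool.Agent.D0H33.YN.SM

/-! # Two-sided bound for the nodal length on closed surfaces -/

set_option autoImplicit false
open MeasureTheory Filter Topology Complex Metric
open scoped ContDiff ENNReal

namespace Pool.Agent.D0H81.YN

open Pool.Agent.Q73.AD (Atl Eig)

universe u v

/-- two-sided bound for the nodal length -/
theorem yau : ∀ (M : Type u) (ι : Type v) [MetricSpace M] [CompactSpace M] [ConnectedSpace M]
    [MeasurableSpace M] [BorelSpace M]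
    (U : ι → Set ℂ) (φ : ι → ℂ → M) (ρ : ι → ℂ → ℝ), Atl U φ ρ → (∀ i, ∀ z ∈ U i, 0 < ρ i z) →
    ∃ c C : ℝ, 0 < c ∧ 0 < C ∧ ∀ (lam : ℝ) (f : M → ℝ), 0 < lam → Eig U φ ρ lam f → (∃ x, f x ≠ 0) →
      ENNReal.ofReal (c * Real.sqrt lam) ≤ (μH[1] : Measure M) {x | f x = 0} ∧
      (μH[1] : Measure M) {x | f x = 0} ≤ ENNReal.ofReal (C * Real.sqrt lam) :=
  yau_of.{u, v} Pool.Agent.D0H33.YN.t_SM.{u, v}

end Pool.Agent.D0H81.YN
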