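import Pool.Agent.D0H81.YN.StmL
import Pool.Agent.Q73.NL.T6

/-! # L2: length of the nodal set near a zero -/

set_option autoImplicit false
open MeasureTheory Filter Topology Complex Metric
open scoped ContDiff ENNReal

namespace Pool.Agent.D0H81.YN

open Pool.Agent.Q73.NL (dx dy lap)

/-- L2 -/
theorem t_L2 : S_L2 := by
  intro y R K q u hR hK h _ hy
  have hzero : ∀ t ∈ Set.Ioo (0 : ℝ) R, ∃ z, (z ∈ ball y R ∧ u z = 0) ∧ dist z y = t := by
    intro t ht
    have hsub : closedBall y t ⊆ ball y R := closedBall_subset_ball ht.2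
    have h6 := Pool.Agent.Q73.NL.t6 Pool.Agent.Q73.NL.t4
      (Pool.Agent.Q73.NL.t5 Pool.Agent.Q73.NL.t4) (ball y R) q u y t K isOpen_ball
      ⟨fun z hz => (h z (ball_subset_closedBall hz)).1.contDiffWithinAt,
        fun z hz => (h z (ball_subset_closedBall hz)).2.2.2⟩ ht.1
      (fun z hz => ⟨(h z (ball_subset_closedBall hz)).2.1, (h z (ball_subset_closedBall hz)).2.2.1⟩)
      (by
        have h1 : K * t ^ 2 ≤ 1 := by
          rcases le_or_gt K 0 with hK0 | hK0
          · nlinarith [sq_nonneg t]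
          · refine le_trans ?_ hK
            apply mul_le_mul_of_nonneg_left _ hK0.le
            exact pow_le_pow_left₀ ht.1.le ht.2.le 2
        have h2 : 3 < Real.pi := Real.pi_gt_three
        nlinarith) hsub ⟨y, mem_ball_self ht.1, hy⟩
    obtain ⟨z, hz, -, -, -, hzt, -⟩ := h6
    exact ⟨z, hz, by rw [dist_comm, dist_eq_norm]; exact hzt⟩
  have hsub : Set.Ioo (0 : ℝ) R ⊆ (fun z : ℂ => dist z y) '' {z | z ∈ ball y R ∧ u z = 0} := by
    intro t ht
    obtain ⟨z, hz, hzt⟩ := hzero t ht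
    exact ⟨z, hz, hzt⟩
  have hlip : LipschitzWith 1 (fun z : ℂ => dist z y) := LipschitzWith.dist_left y
  have h1 := hlip.hausdorffMeasure_image_le (d := 1) zero_le_one {z | z ∈ ball y R ∧ u z = 0}
  have h2 : (μH[1] : Measure ℝ) (Set.Ioo (0 : ℝ) R) = ENNReal.ofReal R := by
    rw [hausdorffMeasure_real, Real.volume_Ioo, sub_zero]
  calc ENNReal.ofReal R = (μH[1] : Measure ℝ) (Set.Ioo (0 : ℝ) R) := h2.symm
    _ ≤ (μH[1] : Measure ℝ) ((fun z : ℂ => dist z y) '' {z | z ∈ ball y R ∧ u z = 0}) :=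
        measure_mono hsub
    _ ≤ _ := by simpa using h1

end Pool.Agent.D0H81.YN
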