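import Pool.Agent.D0H81.YN.LT
import Pool.Agent.D0H81.YN.L2
import Pool.Agent.D0H33.YN.SC
import Pool.Agent.D0H34.YN.EN
import Pool.Agent.D0H65.YN.GS
import Pool.Agent.D0H65.YN.L1
import Pool.Agent.D0H65.YN.L3
import Pool.Agent.D0H65.YN.UB
import Pool.Agent.D0H70.YN.CI
import Pool.Agent.D0H70.YN.L4
import Pool.Agent.D0H79.YN.DV
import Pool.Agent.D0H79.YN.SQ
import Pool.Agent.D0H96.YN.HM
import Pool.Agent.D0H96.YN.SG
import Pool.Agent.Q73.AD.Fin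
import Pool.Agent.Q73.AD.TR1

/-! # Assembly: two-sided bound for the nodal length on closed surfaces -/

set_option autoImplicit false
open MeasureTheory Filter Topology Complex Metric
open scoped ContDiff ENNReal

namespace Pool.Agent.D0H81.YN

open Pool.Agent.Q73.AD (Atl Eig fin_z6 fin_g1 tg2)

universe u v

theorem fin_UB : S_UB := Pool.Agent.D0H65.YN.t_UB t_DI

theorem fin_LT : S_LT := lt_of t_DI fin_UB t_MV Pool.Agent.D0H34.YN.t_EN Pool.Agent.D0H79.YN.t_DV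
  Pool.Agent.D0H70.YN.t_CI Pool.Agent.D0H96.YN.t_SG Pool.Agent.D0H96.YN.t_HM

theorem fin_SQ : S_SQ := Pool.Agent.D0H79.YN.t_SQ (Pool.Agent.D0H33.YN.t_SC fin_LT) fin_z6

theorem fin_GS : S_GS.{u, v} := Pool.Agent.D0H65.YN.gs_of fin_g1.{u, v} tg2.{u, v} fin_SQ

theorem fin_L4 : S_L4.{u, v} := Pool.Agent.D0H70.YN.l4_of Pool.Agent.D0H65.YN.t_L1 t_L2
  Pool.Agent.D0H65.YN.t_L3 fin_g1.{u, v} tg2.{u, v}

/-- two-sided bound for the nodal length -/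
theorem yau_of (hSM : S_SM.{u, v}) : ∀ (M : Type u) (ι : Type v) [MetricSpace M] [CompactSpace M] [ConnectedSpace M]
    [MeasurableSpace M] [BorelSpace M]
    (U : ι → Set ℂ) (φ : ι → ℂ → M) (ρ : ι → ℂ → ℝ), Atl U φ ρ → (∀ i, ∀ z ∈ U i, 0 < ρ i z) →
    ∃ c C : ℝ, 0 < c ∧ 0 < C ∧ ∀ (lam : ℝ) (f : M → ℝ), 0 < lam → Eig U φ ρ lam f → (∃ x, f x ≠ 0) →
      ENNReal.ofReal (c * Real.sqrt lam) ≤ (μH[1] : Measure M) {x | f x = 0} ∧
      (μH[1] : Measure M) {x | f x = 0} ≤ ENNReal.ofReal (C * Real.sqrt lam) := by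
  intro M ι _ _ _ _ _ U φ ρ hA hρ
  have hρ' : ∀ i, ∀ z ∈ U i, 0 ≤ ρ i z := fun i z hz => (hρ i z hz).le
  obtain ⟨c, hc, hlow⟩ := fin_L4.{u, v} M ι U φ ρ hA hρ
  obtain ⟨A, hA0, hup⟩ := fin_GS.{u, v} M ι U φ ρ hA hρ'
  obtain ⟨l₁, hl₁, hsm⟩ := hSM M ι U φ ρ hA hρ'
  refine ⟨c, A * Real.sqrt (1 + l₁⁻¹), hc, by positivity, fun lam f hlam hf hne =>
    ⟨hlow lam f hlam hf hne, ?_⟩⟩
  rcases lt_or_ge lam l₁ with h | h
  · have h1 : {x | f x = 0} = ∅ := by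
      ext x
      simp [hsm lam f hlam.le h hf hne x]
    rw [h1]
    simp
  · refine (hup lam f hlam.le hf hne).trans (ENNReal.ofReal_le_ofReal ?_)
    rw [mul_assoc, ← Real.sqrt_mul (by positivity)]
    apply mul_le_mul_of_nonneg_left _ hA0.le
    apply Real.sqrt_le_sqrt
    have h2 : 1 ≤ l₁⁻¹ * lam := by
      rw [inv_mul_eq_div, le_div_iff₀ hl₁]
      linarith
    linarith

end Pool.Agent.D0H81.YN
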