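import Pool.Agent.D0H81.YN.MV

/-! # LT: assembly of the local theorem -/

set_option autoImplicit false
open MeasureTheory Filter Topology Complex Metric
open scoped ContDiff

namespace Pool.Agent.D0H81.YN

open Pool.Agent.Q73.NL (dx dy lap)
open Pool.Agent.Q73.AD (sn)

theorem fd_csub (v : ℂ → ℝ) (c : ℝ) (e : ℂ) :
    (fun y => fderiv ℝ (fun z => c - v z) y e) = fun y => -fderiv ℝ v y e := by
  funext y
  rw [fderiv_const_sub]
  rfl

theorem gn_csub (v : ℂ → ℝ) (c : ℝ) (z : ℂ) : gn (fun z => c - v z) z = gn v z := by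
  have h1 : dx (fun z => c - v z) z = - dx v z := congrFun (fd_csub v c 1) z
  have h2 : dy (fun z => c - v z) z = - dy v z := congrFun (fd_csub v c I) z
  unfold gn
  rw [h1, h2, neg_sq, neg_sq]

theorem lap_csub (v : ℂ → ℝ) (c : ℝ) (z : ℂ) : lap (fun z => c - v z) z = - lap v z := by
  have h1 : dx (fun z => c - v z) = fun y => - dx v y := fd_csub v c 1
  have h2 : dy (fun z => c - v z) = fun y => - dy v y := fd_csub v c I
  change fderiv ℝ (dx (fun z => c - v z)) z 1 + fderiv ℝ (dy (fun z => c - v z)) z I = _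
  rw [h1, h2, fderiv_fun_neg, fderiv_fun_neg]
  change -(fderiv ℝ (dx v) z 1) + -(fderiv ℝ (dy v) z I) = -(fderiv ℝ (dx v) z 1 + fderiv ℝ (dy v) z I)
  ring

theorem gn_cont {f : ℂ → ℝ} {s : Set ℂ} (hf : ∀ z ∈ s, ContDiffAt ℝ ∞ f z) : ContinuousOn (gn f) s := by
  have h1 : ContinuousOn (dx f) s := fun z hz => (cda_dx (hf z hz)).continuousAt.continuousWithinAt
  have h2 : ContinuousOn (dy f) s := fun z hz => (cda_dy (hf z hz)).continuousAt.continuousWithinAt
  exact ((h1.pow 2).add (h2.pow 2)).sqrt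

theorem P_cont {u : ℂ → ℝ} {s : Set ℂ} (hu : ∀ z ∈ s, ContDiffAt ℝ ∞ u z) (τ : ℝ) :
    ContinuousOn (P u τ) s := fun z hz => (cda_P (hu z hz) τ).continuousAt.continuousWithinAt

/-- the integrand of the divergence estimate -/
noncomputable def GG (u : ℂ → ℝ) (ε : ℝ) (z : ℂ) : ℝ :=
  ε / (ε ^ 2 + u z ^ 2) * (gn u z ^ 2 / Real.sqrt (P u (ε ^ 2) z))

theorem GG_nonneg (u : ℂ → ℝ) {ε : ℝ} (hε : 0 < ε) (z : ℂ) : 0 ≤ GG u ε z := by
  unfold GG; positivity

theorem GG_cont {u : ℂ → ℝ} {s : Set ℂ} (hu : ∀ z ∈ s, ContDiffAt ℝ ∞ u z) {ε : ℝ} (hε : 0 < ε) :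
    ContinuousOn (GG u ε) s := by
  have h0 : ContinuousOn u s := fun z hz => (hu z hz).continuousAt.continuousWithinAt
  have h1 : ContinuousOn (fun z => ε / (ε ^ 2 + u z ^ 2)) s :=
    continuousOn_const.div (continuousOn_const.add (h0.pow 2)) fun z _ => by positivity
  have h2 : ContinuousOn (fun z => gn u z ^ 2 / Real.sqrt (P u (ε ^ 2) z)) s :=
    ((gn_cont hu).pow 2).div (P_cont hu _).sqrt fun z _ =>
      (Real.sqrt_pos.2 (P_pos u (by positivity) z)).ne'
  exact h1.mul h2

theorem lt_of (hDI : S_DI) (hUB : S_UB) (hMV : S_MV) (hEN : S_EN) (hDV : S_DV) (hCI : S_CI)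
    (hSG : S_SG) (hHM : S_HM) : S_LT := by
  obtain ⟨CD, hCD, hDI⟩ := hDI
  obtain ⟨CU, hCU, hUB⟩ := hUB
  obtain ⟨CM, hCM, hMV⟩ := hMV
  obtain ⟨CE, hCE, hEN⟩ := hEN CD hCD
  obtain ⟨CV, hCV, hDV⟩ := hDV
  -- the constants
  obtain ⟨κ, hκ⟩ : ∃ κ, κ = Real.log (2 * CU) / 2 := ⟨_, rfl⟩
  have hκ0 : 0 ≤ κ := by
    rw [hκ]
    have := Real.log_nonneg (by linarith : (1 : ℝ) ≤ 2 * CU)
    linarith
  obtain ⟨A, hA⟩ : ∃ A, A = 16 * (CV * (1 + CE * (CM * (1 + κ + CD) + 9 * Real.pi))) := ⟨_, rfl⟩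
  have hpi := Real.pi_pos
  have hA1 : 1 ≤ A := by
    rw [hA]
    have h1 : 0 ≤ CE * (CM * (1 + κ + CD) + 9 * Real.pi) := by positivity
    have h2 : 1 * 1 ≤ CV * (1 + CE * (CM * (1 + κ + CD) + 9 * Real.pi)) :=
      mul_le_mul hCV (by linarith) (by norm_num) (by linarith)
    linarith
  refine ⟨A, hA1, fun q u h hpos => ?_⟩
  have hcont : ContinuousOn u (closedBall 0 16) := fun z hz => (h.sm z hz).continuousAt.continuousWithinAt
  have hbd : ∀ E : Set ℂ, E ⊆ closedBall 0 16 → BddAbove ((fun x => |u x|) '' E) := by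
    intro E hE
    exact ((isCompact_closedBall (0 : ℂ) 16).bddAbove_image hcont.abs).mono (Set.image_mono hE)
  obtain ⟨S, hS⟩ : ∃ S, S = sn u (closedBall 0 16) := ⟨_, rfl⟩
  obtain ⟨s₀, hs₀⟩ : ∃ s, s = sn u (closedBall 0 1) := ⟨_, rfl⟩
  have hs0 : 0 < s₀ := by
    rw [hs₀]
    exact hpos 0 1 one_pos (closedBall_subset_closedBall (by norm_num))
  have hS1 : ∀ z ∈ closedBall (0 : ℂ) 16, |u z| ≤ S := by
    intro z hz
    rw [hS]
    exact le_csSup (hbd _ le_rfl) ⟨z, hz, rfl⟩
  have hsS : s₀ ≤ S := by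
    rw [hs₀, hS]
    apply csSup_le_csSup (hbd _ le_rfl) (Set.Nonempty.image _ ⟨0, by simp⟩)
    exact Set.image_mono (closedBall_subset_closedBall (by norm_num))
  have hS0 : 0 < S := hs0.trans_le hsS
  obtain ⟨z₀, hz₀, hmax⟩ := (isCompact_closedBall (0 : ℂ) 1).exists_isMaxOn ⟨0, by simp⟩
    ((hcont.mono (closedBall_subset_closedBall (by norm_num))).abs)
  have hz0s : s₀ ≤ |u z₀| := by
    rw [hs₀]
    apply csSup_le (Set.Nonempty.image _ ⟨0, by simp⟩)
    rintro _ ⟨z, hz, rfl⟩
    exact hmax hz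
  obtain ⟨N, hN⟩ : ∃ N, N = Real.log (S / s₀) := ⟨_, rfl⟩
  have hN0 : 0 ≤ N := by
    rw [hN]; exact Real.log_nonneg (by rw [le_div_iff₀ hs0]; linarith)
  have hNe : N = Real.log S - Real.log s₀ := by rw [hN, Real.log_div hS0.ne' hs0.ne']
  -- the bound for the weighted integral
  obtain ⟨B, hB⟩ : ∃ B, B = A / 16 * (1 + N) := ⟨_, rfl⟩
  have hB0 : 0 ≤ B := by rw [hB]; positivity
  have hmain : ∀ ε : ℝ, 0 < ε → ε ≤ s₀ → ∫ z in ball (0 : ℂ) (3 / 2), GG u ε z ≤ B := by
    intro ε hε hεs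
    have hτ : 0 < ε ^ 2 := by positivity
    have hτS : ε ^ 2 ≤ S ^ 2 := pow_le_pow_left₀ hε.le (hεs.trans hsS) 2
    obtain ⟨v, hv⟩ : ∃ v, v = vv u (ε ^ 2) := ⟨_, rfl⟩
    obtain ⟨K, hK⟩ : ∃ K, K = Real.log S + κ := ⟨_, rfl⟩
    have hsub : ball (0 : ℂ) 10 ⊆ ball 0 16 := ball_subset_ball (by norm_num)
    have hvK : ∀ z ∈ ball (0 : ℂ) 10, v z ≤ K := by
      intro z hz
      have h1 := hUB q u (ε ^ 2) S hτ h (fun w hw => hS1 w (ball_subset_closedBall hw)) z hz
      have h2 : P u (ε ^ 2) z ≤ 2 * CU * S ^ 2 := by nlinarith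
      have h3 : Real.log (P u (ε ^ 2) z) ≤ Real.log (2 * CU * S ^ 2) :=
        Real.log_le_log (P_pos u hτ z) h2
      rw [Real.log_mul (by positivity) (by positivity), Real.log_pow] at h3
      rw [hv, hK, hκ]
      unfold vv
      push_cast at h3
      linarith
    have hvz : Real.log s₀ ≤ v z₀ := by
      have h1 : s₀ ^ 2 ≤ P u (ε ^ 2) z₀ := by
        unfold P
        have : s₀ ^ 2 ≤ u z₀ ^ 2 := by
          rw [← sq_abs (u z₀)]
          exact pow_le_pow_left₀ hs0.le hz0s 2
        nlinarith [sq_nonneg (dx u z₀), sq_nonneg (dy u z₀)]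
      have h2 := Real.log_le_log (by positivity) h1
      rw [Real.log_pow] at h2
      rw [hv]
      unfold vv
      push_cast at h2
      linarith
    have hz01 : ‖z₀‖ ≤ 1 := by simpa using hz₀
    have hv10 : ∀ z ∈ ball (0 : ℂ) 10, ContDiffAt ℝ ∞ v z ∧ v z ≤ K ∧ -CD ≤ lap v z := by
      intro z hz
      have h1 := hDI q u (ε ^ 2) hτ h z (hsub hz)
      rw [← hv] at h1
      exact ⟨h1.1, hvK z hz, h1.2⟩
    have hmv := hMV v K CD z₀ hz01 (by linarith) hv10
    have hsub3 : closedBall (0 : ℂ) 3 ⊆ ball 0 10 := closedBall_subset_ball (by norm_num)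
    have hen := hEN (fun z => (K + 1) - v z) (by
      intro z hz
      have h1 := hv10 z (hsub3 hz)
      refine ⟨contDiffAt_const.sub h1.1, by linarith [h1.2.1], ?_⟩
      rw [lap_csub]
      linarith [h1.2.2])
    simp only [gn_csub] at hen
    have hvc : ContinuousOn v (closedBall 0 3) := fun z hz =>
      (hv10 z (hsub3 hz)).1.continuousAt.continuousWithinAt
    have hvi : IntegrableOn v (ball 0 3) :=
      (hvc.integrableOn_compact (isCompact_closedBall _ _)).mono_set ball_subset_closedBall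
    have hci : ∀ c : ℝ, IntegrableOn (fun _ : ℂ => c) (ball (0 : ℂ) 3) := fun c =>
      integrableOn_const measure_ball_lt_top.ne
    have hvol : volume.real (ball (0 : ℂ) 3) = 9 * Real.pi := by
      rw [measureReal_def, Complex.volume_ball, ENNReal.toReal_mul, ENNReal.toReal_pow,
        ENNReal.toReal_ofReal (by norm_num)]
      norm_num
    have e1 : ∫ z in ball (0 : ℂ) 3, ((K + 1) - v z) =
        (∫ z in ball (0 : ℂ) 3, (K - v z)) + 9 * Real.pi := by
      have h1 : (fun z => (K + 1) - v z) = fun z => (K - v z) + 1 := by funext z; ring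
      have h2 : IntegrableOn (fun z => K - v z) (ball (0 : ℂ) 3) := (hci K).sub hvi
      rw [h1, integral_add h2 (hci 1), setIntegral_const, hvol]
      simp
    have hdv := hDV q u ε (ε ^ 2) hε hτ h
    rw [← hv] at hdv
    have hNn : K - v z₀ + CD ≤ N + κ + CD := by rw [hK, hNe]; linarith
    calc ∫ z in ball (0 : ℂ) (3 / 2), GG u ε z ≤ CV * (1 + ∫ z in ball (0 : ℂ) 2, gn v z) := hdv
      _ ≤ CV * (1 + CE * (CM * (N + κ + CD) + 9 * Real.pi)) := by
          have h2 : ∫ z in ball (0 : ℂ) 2, gn v z ≤ CE * (CM * (N + κ + CD) + 9 * Real.pi) := by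
            refine hen.trans ?_
            rw [e1]
            have h3 : CM * (K - v z₀ + CD) ≤ CM * (N + κ + CD) :=
              mul_le_mul_of_nonneg_left hNn (by linarith)
            have h4 : (∫ z in ball (0 : ℂ) 3, (K - v z)) + 9 * Real.pi ≤
              CM * (N + κ + CD) + 9 * Real.pi := by linarith
            exact mul_le_mul_of_nonneg_left h4 (by linarith)
          have : 0 ≤ CV := by linarith
          nlinarith
      _ ≤ B := by
          rw [hB, hA]
          have h1 : N + κ + CD ≤ (1 + κ + CD) * (1 + N) := by nlinarith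
          have h2 : CM * (N + κ + CD) + 9 * Real.pi ≤ (CM * (1 + κ + CD) + 9 * Real.pi) * (1 + N) := by
            have := mul_le_mul_of_nonneg_left h1 (by linarith : 0 ≤ CM)
            nlinarith
          have h3 : 1 + CE * (CM * (N + κ + CD) + 9 * Real.pi) ≤
              (1 + CE * (CM * (1 + κ + CD) + 9 * Real.pi)) * (1 + N) := by
            have := mul_le_mul_of_nonneg_left h2 (by linarith : 0 ≤ CE)
            nlinarith
          have h4 := mul_le_mul_of_nonneg_left h3 (by linarith : 0 ≤ CV)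
          linarith
  -- counting
  have hfin := hHM {z | z ∈ closedBall (0 : ℂ) 1 ∧ u z = 0} (2 * B) (1 / 18) (fun z hz => hz.1)
    (by positivity) (by norm_num) (by
      intro δ F hδ hδ1 hF hsep
      obtain ⟨ε, hε, hε2⟩ := hSG q u δ h hδ (by linarith) hpos
      obtain ⟨η, hη⟩ : ∃ η, η = min ε s₀ := ⟨_, rfl⟩
      have hη0 : 0 < η := by rw [hη]; exact lt_min hε hs0
      have hηε : η ≤ ε := by rw [hη]; exact min_le_left _ _
      have hηs : η ≤ s₀ := by rw [hη]; exact min_le_right _ _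
      have hball : ∀ y ∈ F, ball y (2 * δ) ⊆ ball (0 : ℂ) (3 / 2) := by
        intro y hy
        have h1 := (hF hy).1
        rw [mem_closedBall_zero_iff] at h1
        intro z hz
        rw [mem_ball, dist_eq_norm] at hz
        rw [mem_ball_zero_iff]
        have := norm_sub_norm_le z y
        linarith
      have hlow : ∀ y ∈ F, δ / 2 ≤ ∫ z in ball y (2 * δ), GG u η z := by
        intro y hy
        have hyZ := hF hy
        apply hCI u y δ η hδ hδ1 hη0
        · intro z hz
          apply h.sm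
          have h1 := hyZ.1
          rw [mem_closedBall_zero_iff] at h1
          rw [mem_closedBall, dist_eq_norm] at hz
          rw [mem_closedBall_zero_iff]
          have := norm_sub_norm_le z y
          linarith
        · intro r hr
          obtain ⟨⟨z, hz, hz2⟩, z', hz', hz2'⟩ := hε2 y hyZ.1 hyZ.2 r hr
          exact ⟨⟨z, hz, by linarith⟩, z', hz', by linarith⟩
      have hint : IntegrableOn (GG u η) (ball 0 (3 / 2)) := by
        have hsub : closedBall (0 : ℂ) (3 / 2) ⊆ closedBall 0 16 :=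
          closedBall_subset_closedBall (by norm_num)
        exact ((GG_cont (fun z hz => h.sm z (hsub hz)) hη0).integrableOn_compact
          (isCompact_closedBall _ _)).mono_set ball_subset_closedBall
      have hsum : ∑ y ∈ F, ∫ z in ball y (2 * δ), GG u η z ≤ ∫ z in ball (0 : ℂ) (3 / 2), GG u η z := by
        rw [← integral_biUnion_finset F (fun y _ => measurableSet_ball) (by
          intro x hx y hy hxy
          apply ball_disjoint_ball
          have := hsep x hx y hy hxy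
          linarith) (fun y hy => hint.mono_set (hball y hy))]
        apply setIntegral_mono_set hint
        · exact Filter.Eventually.of_forall fun z => GG_nonneg u hη0 z
        · exact (Set.iUnion₂_subset hball).eventuallyLE
      have hcard : (F.card : ℝ) * (δ / 2) ≤ ∑ y ∈ F, ∫ z in ball y (2 * δ), GG u η z := by
        rw [← nsmul_eq_mul]
        exact Finset.card_nsmul_le_sum _ _ _ hlow
      have := hmain η hη0 hηs
      linarith)
  refine hfin.trans (ENNReal.ofReal_le_ofReal ?_)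
  rw [hB, ← hS, ← hs₀, ← hN]
  linarith

end Pool.Agent.D0H81.YN
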