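import Pool.Agent.D0H81.YN.DI
import Pool.Agent.Q73.AD.TA2
import Pool.Agent.Helper904_QS.J

/-! # MV: mean value inequality -/

set_option autoImplicit false
open MeasureTheory Filter Topology Complex Metric
open scoped ContDiff

namespace Pool.Agent.D0H81.YN

open Pool.Agent.Q73.NL (dx dy lap)
open Pool.Agent.Q73.AD (ta2_cd)
open Pool.Agent.Helper904_QS (chi Phi)

theorem two_le_inf : ((2 : ℕ∞) : WithTop ℕ∞) ≤ (∞ : WithTop ℕ∞) := by exact_mod_cast le_top

/-- the Laplacian only depends on the germ -/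
theorem lap_congr {f g : ℂ → ℝ} {z : ℂ} (h : f =ᶠ[𝓝 z] g) : lap f z = lap g z := by
  have h1 : dx f =ᶠ[𝓝 z] dx g := by
    filter_upwards [h.eventuallyEq_nhds] with y hy
    change fderiv ℝ f y 1 = fderiv ℝ g y 1
    rw [hy.fderiv_eq]
  have h2 : dy f =ᶠ[𝓝 z] dy g := by
    filter_upwards [h.eventuallyEq_nhds] with y hy
    change fderiv ℝ f y I = fderiv ℝ g y I
    rw [hy.fderiv_eq]
  change fderiv ℝ (dx f) z 1 + fderiv ℝ (dy f) z I = fderiv ℝ (dx g) z 1 + fderiv ℝ (dy g) z I
  rw [h1.fderiv_eq, h2.fderiv_eq]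

/-- smooth cutoff function -/
theorem exists_cut {a R : ℝ} (ha : 0 ≤ a) (haR : a < R) : ∃ χ : ℂ → ℝ, ContDiff ℝ ∞ χ ∧
    HasCompactSupport χ ∧ tsupport χ ⊆ ball 0 R ∧ (∀ z, 0 ≤ χ z ∧ χ z ≤ 1) ∧
    ∀ z ∈ closedBall (0 : ℂ) a, χ =ᶠ[𝓝 z] fun _ => 1 := by
  let b : ContDiffBump (0 : ℂ) := ⟨a + (R - a) / 3, a + 2 * (R - a) / 3, by linarith, by linarith⟩
  refine ⟨b, b.contDiff, b.hasCompactSupport, ?_, fun z => ⟨b.nonneg, b.le_one⟩, fun z hz => ?_⟩
  · rw [b.tsupport_eq]
    exact closedBall_subset_ball (by change a + 2 * (R - a) / 3 < R; linarith)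
  · have h1 : z ∈ ball (0 : ℂ) (a + (R - a) / 3) := by
      rw [mem_ball]
      rw [mem_closedBall] at hz
      linarith
    filter_upwards [isOpen_ball.mem_nhds h1] with y hy
    exact b.one_of_mem_closedBall (ball_subset_closedBall hy)

/-- smoothed Jensen inequality -/
theorem jen {v : ℂ → ℝ} {R r C₁ : ℝ} {y : ℂ} (hr : 0 < r) (hyr : ‖y‖ + r < R) (_hC : 0 ≤ C₁)
    (hv : ∀ z ∈ ball (0 : ℂ) R, ContDiffAt ℝ ∞ v z)
    (hl : ∀ z ∈ ball (0 : ℂ) R, -C₁ ≤ lap v z) :
    2 * Real.pi * v y ≤ (∫ z, chi r (z - y) * v z) + C₁ * (Real.pi * r ^ 2 / 6) := by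
  obtain ⟨k1, k2, -, k4, -, -, k7, k8, k9, k10, -, -, k13, -, -⟩ :=
    Pool.Agent.Helper904_QS.PKER.t_KER r hr
  obtain ⟨χ, c1, c2, c3, c4, c5⟩ := exists_cut (by positivity : 0 ≤ ‖y‖ + r) hyr
  have hf : ContDiff ℝ ∞ fun z => χ z * v z := ta2_cd c1 c3 hv
  have hJ := Pool.Agent.Helper904_QS.PJ.t_J (fun z => χ z * v z) y r (hf.of_le two_le_inf) hr
  have hlc : Continuous (lap fun z => χ z * v z) := by
    have : ContDiff ℝ ∞ (lap fun z => χ z * v z) := by
      have hd : ∀ (g : ℂ → ℝ) (e : ℂ), ContDiff ℝ ∞ g → ContDiff ℝ ∞ fun z => fderiv ℝ g z e :=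
        fun g e hg => (hg.fderiv_right (by simp)).clm_apply contDiff_const
      exact (hd _ 1 (hd _ 1 hf)).add (hd _ I (hd _ I hf))
    exact this.continuous
  have hin : ∀ z : ℂ, ‖z - y‖ < r → z ∈ closedBall (0 : ℂ) (‖y‖ + r) := by
    intro z hz
    rw [mem_closedBall_zero_iff]
    have := norm_sub_norm_le z y
    linarith
  have hinR : ∀ z : ℂ, ‖z - y‖ < r → z ∈ ball (0 : ℂ) R := by
    intro z hz
    have := hin z hz
    rw [mem_closedBall_zero_iff] at this
    rw [mem_ball_zero_iff]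
    linarith
  have hyb : y ∈ closedBall (0 : ℂ) (‖y‖ + r) := hin y (by simpa using hr)
  have e1 : (fun z => chi r (z - y) * (χ z * v z)) = fun z => chi r (z - y) * v z := by
    funext z
    rcases lt_or_ge ‖z - y‖ r with h | h
    · rw [(c5 z (hin z h)).self_of_nhds]
      ring
    · rw [k4 _ h]
      ring
  have hint := (Pool.Agent.Helper904_QS.PKER.t_INT _ y r hlc hr).2
  have hPhi : Integrable fun z => Phi r (z - y) := k8.comp_sub_right y
  have e2 : -∫ z, Phi r (z - y) * lap (fun z => χ z * v z) z ≤ C₁ * (Real.pi * r ^ 2 / 6) := by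
    have h1 : ∫ z, Phi r (z - y) = Real.pi * r ^ 2 / 6 := by
      rw [integral_sub_right_eq_self (fun z => Phi r z) y, k13]
    rw [← h1, ← integral_neg, ← integral_const_mul]
    apply integral_mono hint.neg (hPhi.const_mul _)
    intro z
    simp only [Pi.neg_apply]
    rcases lt_or_ge ‖z - y‖ r with h | h
    · have h2 : lap (fun z => χ z * v z) z = lap v z := by
        apply lap_congr
        filter_upwards [c5 z (hin z h)] with w hw
        rw [hw]
        ring
      rw [h2]
      nlinarith [hl z (hinR z h), k9 (z - y)]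
    · rw [k10 _ h]
      simp
  have hy1 : χ y = 1 := (c5 y hyb).self_of_nhds
  have e3 : 2 * Real.pi * v y = (∫ z, chi r (z - y) * (χ z * v z)) -
      ∫ z, Phi r (z - y) * lap (fun z => χ z * v z) z := by
    have := hJ
    simp only [hy1, one_mul] at this
    exact this
  rw [e3, e1]
  linarith

/-- MV -/
theorem t_MV : S_MV := by
  refine ⟨800, by norm_num, fun v K C₁ z₀ hz₀ hC hv => ?_⟩
  have hr : (0 : ℝ) < 8 := by norm_num
  obtain ⟨k1, k2, k3, k4, k5, -, k7, -⟩ := Pool.Agent.Helper904_QS.PKER.t_KER 8 hr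
  have hJ := jen (v := v) (R := 10) (r := 8) (C₁ := C₁) (y := z₀) hr (by linarith) hC
    (fun z hz => (hv z hz).1) (fun z hz => (hv z hz).2.2)
  have hcont : ContinuousOn v (ball (0 : ℂ) 10) := fun z hz => (hv z hz).1.continuousAt.continuousWithinAt
  -- the integrand `chi * (K - v)` is supported in the ball
  have hin : ∀ z : ℂ, ‖z - z₀‖ < 8 → z ∈ closedBall (0 : ℂ) 9 := by
    intro z hz
    rw [mem_closedBall_zero_iff]
    have := norm_sub_norm_le z z₀
    linarith
  have hsub9 : closedBall (0 : ℂ) 9 ⊆ ball 0 10 := closedBall_subset_ball (by norm_num)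
  have hcK : ∀ c : ℝ, Integrable fun z => chi 8 (z - z₀) * (c - v z) := by
    intro c
    have h1 : IntegrableOn (fun z => chi 8 (z - z₀) * (c - v z)) (closedBall 0 9) := by
      apply ContinuousOn.integrableOn_compact (isCompact_closedBall _ _)
      exact ((k1.comp (continuous_id.sub continuous_const)).continuousOn).mul
        (continuousOn_const.sub (hcont.mono hsub9))
    have h2 : (fun z => chi 8 (z - z₀) * (c - v z)) =
        (closedBall (0 : ℂ) 9).indicator fun z => chi 8 (z - z₀) * (c - v z) := by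
      funext z
      by_cases hz : z ∈ closedBall (0 : ℂ) 9
      · rw [Set.indicator_of_mem hz]
      · rw [Set.indicator_of_notMem hz, k4, zero_mul]
        by_contra h
        exact hz (hin z (not_le.1 h))
    rw [h2]
    exact h1.integrable_indicator measurableSet_closedBall
  have hi0 : Integrable fun z => chi 8 (z - z₀) * v z := by
    have := (hcK 0).neg
    refine this.congr (Filter.Eventually.of_forall fun z => ?_)
    simp
  have hich : Integrable fun z => chi 8 (z - z₀) := by
    have := (hcK 1).add hi0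
    refine this.congr (Filter.Eventually.of_forall fun z => ?_)
    simp only [Pi.add_apply]
    ring
  have e1 : ∫ z, chi 8 (z - z₀) * (K - v z) = 2 * Real.pi * K - ∫ z, chi 8 (z - z₀) * v z := by
    have h1 : (fun z => chi 8 (z - z₀) * (K - v z)) =
        fun z => K * chi 8 (z - z₀) - chi 8 (z - z₀) * v z := by
      funext z; ring
    rw [h1, integral_sub (hich.const_mul K) hi0, integral_const_mul,
      integral_sub_right_eq_self (fun z => chi 8 z) z₀, k7]
    ring
  have hnn : ∀ z, 0 ≤ chi 8 (z - z₀) * (K - v z) := by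
    intro z
    rcases lt_or_ge ‖z - z₀‖ 8 with h | h
    · exact mul_nonneg (k2 _) (by linarith [(hv z (hsub9 (hin z h))).2.1])
    · rw [k4 _ h, zero_mul]
  have e2 : ∫ z in ball (0 : ℂ) 3, (K - v z) ≤ 64 / 3 * ∫ z, chi 8 (z - z₀) * (K - v z) := by
    have h1 : ∫ z in ball (0 : ℂ) 3, (K - v z) ≤
        ∫ z in ball (0 : ℂ) 3, 64 / 3 * (chi 8 (z - z₀) * (K - v z)) := by
      apply setIntegral_mono_on
      · have : IntegrableOn (fun z => K - v z) (closedBall (0 : ℂ) 9) :=
          (continuousOn_const.sub (hcont.mono hsub9)).integrableOn_compact (isCompact_closedBall _ _)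
        exact this.mono_set (ball_subset_closedBall.trans (closedBall_subset_closedBall (by norm_num)))
      · exact ((hcK K).const_mul _).integrableOn
      · exact measurableSet_ball
      · intro z hz
        rw [mem_ball_zero_iff] at hz
        have h3 : ‖z - z₀‖ ≤ 8 / 2 := by
          have := norm_sub_le z z₀
          linarith
        have h4 := k5 (z - z₀) h3
        have h5 : 0 ≤ K - v z := by
          have : z ∈ ball (0 : ℂ) 10 := by rw [mem_ball_zero_iff]; linarith
          linarith [(hv z this).2.1]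
        nlinarith
    refine h1.trans ?_
    rw [integral_const_mul]
    apply mul_le_mul_of_nonneg_left _ (by norm_num)
    exact setIntegral_le_integral (hcK K) (Filter.Eventually.of_forall hnn)
  have hpi : Real.pi ≤ 3.15 := by linarith [Real.pi_lt_d2]
  have hpi0 := Real.pi_pos
  have hKv : 0 ≤ K - v z₀ := by
    have : z₀ ∈ ball (0 : ℂ) 10 := by rw [mem_ball_zero_iff]; linarith
    linarith [(hv z₀ this).2.1]
  calc ∫ z in ball (0 : ℂ) 3, (K - v z) ≤ 64 / 3 * ∫ z, chi 8 (z - z₀) * (K - v z) := e2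
    _ ≤ 64 / 3 * (2 * Real.pi * (K - v z₀) + C₁ * (Real.pi * 8 ^ 2 / 6)) := by
        apply mul_le_mul_of_nonneg_left _ (by norm_num)
        rw [e1]
        linarith
    _ ≤ 800 * (K - v z₀ + C₁) := by nlinarith

end Pool.Agent.D0H81.YN
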