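import Pool.Agent.D0H81.YN.Stm

/-!
# The lower bound for the nodal length on closed surfaces (Brüning): statements of the packages
-/

set_option autoImplicit false
open MeasureTheory Filter Topology Complex Metric
open scoped ContDiff ENNReal

namespace Pool.Agent.D0H81.YN

open Pool.Agent.Q73.NL (dx dy lap)
open Pool.Agent.Q73.AD (sn gr gd ct Loc Atl Eig)

noncomputable section

universe u v

/-- L1: eigenfunctions have zeros -/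
def S_L1 : Prop := ∀ (M : Type u) (ι : Type v) [MetricSpace M] [CompactSpace M] [ConnectedSpace M]
  (U : ι → Set ℂ) (φ : ι → ℂ → M) (ρ : ι → ℂ → ℝ), Atl U φ ρ → (∀ i, ∀ z ∈ U i, 0 < ρ i z) →
  ∀ (lam : ℝ) (f : M → ℝ), 0 < lam → Eig U φ ρ lam f → (∃ x, f x ≠ 0) → ∃ x, f x = 0

/-- L2: length of the nodal set near a zero -/
def S_L2 : Prop := ∀ (y : ℂ) (R K : ℝ) (q u : ℂ → ℝ), 0 < R → K * R ^ 2 ≤ 1 →
  (∀ z ∈ closedBall y R, ContDiffAt ℝ ∞ u z ∧ 0 ≤ q z ∧ q z ≤ K ∧ lap u z + q z * u z = 0) →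
  (∀ r : ℝ, 0 < r → r ≤ R → ∃ z ∈ ball y r, u z ≠ 0) → u y = 0 →
  ENNReal.ofReal R ≤ (μH[1] : Measure ℂ) {z | z ∈ ball y R ∧ u z = 0}

/-- L3: zeros in every disc of the size of the wave length -/
def S_L3 : Prop := ∃ K₀ : ℝ, 1 ≤ K₀ ∧ ∀ (p : ℂ) (R m : ℝ) (V u : ℂ → ℝ), 0 < R → 0 < m →
  K₀ ≤ m * R ^ 2 →
  (∀ z ∈ ball p R, ContDiffAt ℝ ∞ u z ∧ ContinuousAt V z ∧ m ≤ V z ∧ lap u z + V z * u z = 0) →
  ∃ z ∈ ball p R, u z = 0

/-- L4: the lower bound for the nodal length on a closed surface with conformal charts -/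
def S_L4 : Prop := ∀ (M : Type u) (ι : Type v) [MetricSpace M] [CompactSpace M] [ConnectedSpace M]
  [MeasurableSpace M] [BorelSpace M]
  (U : ι → Set ℂ) (φ : ι → ℂ → M) (ρ : ι → ℂ → ℝ), Atl U φ ρ → (∀ i, ∀ z ∈ U i, 0 < ρ i z) →
  ∃ c : ℝ, 0 < c ∧ ∀ (lam : ℝ) (f : M → ℝ), 0 < lam → Eig U φ ρ lam f → (∃ x, f x ≠ 0) →
    ENNReal.ofReal (c * Real.sqrt lam) ≤ (μH[1] : Measure M) {x | f x = 0}

end

end Pool.Agent.D0H81.YN
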